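import Mathlib

/-!
Sum versus integral of a unimodal function; the case `x ^ n * exp (-(s * x))`.
-/

open MeasureTheory Set Filter Topology

namespace Pool.Agent.SC90

/-- The integral over `[k, k+1]` of a continuous function lies between two bounds of the function
there. -/
theorem unit_integral_le {f : ℝ → ℝ} (hc : Continuous f) (k : ℝ) (c : ℝ)
    (h : ∀ x ∈ Icc k (k + 1), f x ≤ c) : ∫ x in k..(k + 1), f x ≤ c := by
  have h1 : ∫ x in k..(k + 1), f x ≤ ∫ _x in k..(k + 1), c :=
    intervalIntegral.integral_mono_on (by linarith) (hc.intervalIntegrable _ _)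
      (by simp) h
  simpa using h1

theorem le_unit_integral {f : ℝ → ℝ} (hc : Continuous f) (k : ℝ) (c : ℝ)
    (h : ∀ x ∈ Icc k (k + 1), c ≤ f x) : c ≤ ∫ x in k..(k + 1), f x := by
  have h1 : ∫ _x in k..(k + 1), c ≤ ∫ x in k..(k + 1), f x :=
    intervalIntegral.integral_mono_on (by linarith) (by simp)
      (hc.intervalIntegrable _ _) h
  simpa using h1

/-- A nonnegative continuous function that increases up to `a` and decreases after `a`. -/
structure Unim (f : ℝ → ℝ) (a U : ℝ) : Prop where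
  cont : Continuous f
  nonneg : ∀ x, 0 ≤ x → 0 ≤ f x
  ha : 0 ≤ a
  mono : MonotoneOn f (Icc 0 a)
  anti : AntitoneOn f (Ici a)
  le : ∀ x, 0 ≤ x → f x ≤ U

variable {f : ℝ → ℝ} {a U : ℝ}

theorem Unim.U_nonneg (h : Unim f a U) : 0 ≤ U :=
  (h.nonneg 0 le_rfl).trans (h.le 0 le_rfl)

/-- Upper comparison of partial sums. -/
theorem Unim.sum_le (h : Unim f a U) (M : ℕ) :
    ∑ k ∈ Finset.range (M + 1), f k ≤ (∫ x in (0:ℝ)..M, f x) + U := by
  have hii : ∀ p q : ℝ, IntervalIntegrable f volume p q := fun p q => h.cont.intervalIntegrable _ _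
  have hadd : ∀ M : ℕ, (∫ x in (0:ℝ)..((M + 1 : ℕ) : ℝ), f x)
      = (∫ x in (0:ℝ)..M, f x) + ∫ x in (M:ℝ)..(M + 1), f x := by
    intro M
    rw [intervalIntegral.integral_add_adjacent_intervals (hii _ _) (hii _ _)]
    push_cast
    rfl
  -- below `a`
  have hlow : ∀ M : ℕ, (M : ℝ) ≤ a → ∑ k ∈ Finset.range M, f k ≤ ∫ x in (0:ℝ)..M, f x := by
    intro M
    induction M with
    | zero => intro _; simp
    | succ M ih =>
      intro hM
      rw [Finset.sum_range_succ, hadd]
      push_cast at hM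
      have h1 := ih (by linarith)
      have h2 : f M ≤ ∫ x in (M:ℝ)..(M + 1), f x := by
        apply le_unit_integral h.cont
        intro x hx
        apply h.mono ⟨by positivity, by linarith⟩ ⟨le_trans (by positivity) hx.1, by linarith [hx.2]⟩ hx.1
      linarith
  set m := ⌊a⌋₊ with hm
  have hma : (m : ℝ) ≤ a := Nat.floor_le h.ha
  have ham : a < m + 1 := Nat.lt_floor_add_one a
  rcases le_or_gt M m with hMm | hMm
  · rw [Finset.sum_range_succ]
    have h1 := hlow M (le_trans (by exact_mod_cast hMm) hma)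
    have h2 := h.le M (by positivity)
    linarith
  · -- M ≥ m + 1
    obtain ⟨j, rfl⟩ := Nat.exists_eq_add_of_le hMm
    clear hMm
    induction j with
    | zero =>
      simp only [Nat.succ_eq_add_one, Nat.add_zero]
      rw [Finset.sum_range_succ, Finset.sum_range_succ, hadd]
      have h1 := hlow m hma
      have h2 : min (f m) (f ((m + 1 : ℕ) : ℝ)) ≤ ∫ x in (m:ℝ)..(m + 1), f x := by
        apply le_unit_integral h.cont
        intro x hx
        rcases le_or_gt x a with hxa | hxa
        · exact (min_le_left _ _).trans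
            (h.mono ⟨by positivity, hma⟩ ⟨le_trans (by positivity) hx.1, hxa⟩ hx.1)
        · refine (min_le_right _ _).trans ?_
          apply h.anti (mem_Ici.2 hxa.le) (mem_Ici.2 (by push_cast; linarith))
          push_cast
          exact hx.2
      have h3 : max (f m) (f ((m + 1 : ℕ) : ℝ)) ≤ U :=
        max_le (h.le _ (by positivity)) (h.le _ (by positivity))
      have h4 := min_add_max (f m) (f ((m + 1 : ℕ) : ℝ))
      linarith
    | succ j ih =>
      have e : m.succ + (j + 1) = (m.succ + j) + 1 := by ring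
      rw [e, Finset.sum_range_succ, hadd]
      have h2 : f (((m.succ + j) + 1 : ℕ) : ℝ)
          ≤ ∫ x in ((m.succ + j : ℕ):ℝ)..((m.succ + j : ℕ) + 1), f x := by
        apply le_unit_integral h.cont
        intro x hx
        apply h.anti
        · apply mem_Ici.2
          refine le_trans ?_ hx.1
          push_cast
          have : (0:ℝ) ≤ j := by positivity
          linarith
        · apply mem_Ici.2
          push_cast
          have : (0:ℝ) ≤ j := by positivity
          linarith
        · have := hx.2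
          push_cast at this ⊢
          exact this
      linarith

/-- Lower comparison of partial sums. -/
theorem Unim.le_sum (h : Unim f a U) (M : ℕ) :
    (∫ x in (0:ℝ)..M, f x) ≤ ∑ k ∈ Finset.range (M + 1), f k + U := by
  have hii : ∀ p q : ℝ, IntervalIntegrable f volume p q := fun p q => h.cont.intervalIntegrable _ _
  have hadd : ∀ M : ℕ, (∫ x in (0:ℝ)..((M + 1 : ℕ) : ℝ), f x)
      = (∫ x in (0:ℝ)..M, f x) + ∫ x in (M:ℝ)..(M + 1), f x := by
    intro M
    rw [intervalIntegral.integral_add_adjacent_intervals (hii _ _) (hii _ _)]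
    push_cast
    rfl
  have hU := h.U_nonneg
  -- below `a`
  have hlow : ∀ M : ℕ, (M : ℝ) ≤ a → (∫ x in (0:ℝ)..M, f x) ≤ ∑ k ∈ Finset.range (M + 1), f k := by
    intro M
    induction M with
    | zero => intro _; simpa using h.nonneg 0 le_rfl
    | succ M ih =>
      intro hM
      rw [Finset.sum_range_succ, hadd]
      push_cast at hM
      have h1 := ih (by linarith)
      have h2 : ∫ x in (M:ℝ)..(M + 1), f x ≤ f ((M + 1 : ℕ) : ℝ) := by
        apply unit_integral_le h.cont
        intro x hx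
        apply h.mono ⟨le_trans (by positivity) hx.1, by linarith [hx.2]⟩
          ⟨by positivity, by push_cast; linarith⟩
        push_cast
        exact hx.2
      linarith
  set m := ⌊a⌋₊ with hm
  have hma : (m : ℝ) ≤ a := Nat.floor_le h.ha
  have ham : a < m + 1 := Nat.lt_floor_add_one a
  rcases le_or_gt M m with hMm | hMm
  · have h1 := hlow M (le_trans (by exact_mod_cast hMm) hma)
    linarith
  · -- M ≥ m + 1
    have key : ∀ j : ℕ, (∫ x in (0:ℝ)..((m + 1 + j : ℕ) : ℝ), f x)
        ≤ ∑ k ∈ Finset.range (m + 1 + j), f k + U := by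
      intro j
      induction j with
      | zero =>
        simp only [Nat.add_zero]
        rw [hadd]
        have h1 := hlow m hma
        have h2 : ∫ x in (m:ℝ)..(m + 1), f x ≤ U := by
          apply unit_integral_le h.cont
          intro x hx
          exact h.le x (le_trans (by positivity) hx.1)
        linarith
      | succ j ih =>
        have e : m + 1 + (j + 1) = (m + 1 + j) + 1 := by ring
        rw [e, Finset.sum_range_succ, hadd]
        have h2 : ∫ x in ((m + 1 + j : ℕ):ℝ)..((m + 1 + j : ℕ) + 1), f x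
            ≤ f ((m + 1 + j : ℕ) : ℝ) := by
          apply unit_integral_le h.cont
          intro x hx
          have hj : (0:ℝ) ≤ j := by positivity
          have hx1 := hx.1
          apply h.anti (mem_Ici.2 (by push_cast; linarith)) (mem_Ici.2 ?_) hx.1
          push_cast at hx1
          linarith
        linarith
    obtain ⟨j, rfl⟩ := Nat.exists_eq_add_of_le hMm
    have := key j
    rw [Finset.sum_range_succ]
    have h5 := h.nonneg ((m.succ + j : ℕ) : ℝ) (by positivity)
    simp only [Nat.succ_eq_add_one] at *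
    linarith

theorem Unim.summable (h : Unim f a U) (hint : IntegrableOn f (Ioi 0)) :
    Summable (fun k : ℕ => f k) := by
  apply summable_of_sum_range_le (c := (∫ x in Ioi (0:ℝ), f x) + U)
  · intro k; exact h.nonneg _ (by positivity)
  · intro M
    have h1 := h.sum_le M
    have h2 : (∫ x in (0:ℝ)..M, f x) ≤ ∫ x in Ioi (0:ℝ), f x := by
      rw [intervalIntegral.integral_of_le (by positivity)]
      apply setIntegral_mono_set hint
      · filter_upwards [ae_restrict_mem measurableSet_Ioi] with x hx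
        exact h.nonneg x (le_of_lt hx)
      · exact Ioc_subset_Ioi_self.eventuallyLE
    rw [Finset.sum_range_succ] at h1
    have h3 := h.nonneg (M : ℝ) (by positivity)
    linarith

theorem Unim.abs_sub_le (h : Unim f a U) (hint : IntegrableOn f (Ioi 0)) :
    |∑' k : ℕ, f k - ∫ x in Ioi (0:ℝ), f x| ≤ U := by
  have hs := (h.summable hint).hasSum.tendsto_sum_nat
  have hs' : Tendsto (fun M : ℕ => ∑ k ∈ Finset.range (M + 1), f k) atTop (𝓝 (∑' k : ℕ, f k)) :=
    hs.comp (tendsto_add_atTop_nat 1)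
  have hi : Tendsto (fun M : ℕ => ∫ x in (0:ℝ)..(M:ℝ), f x) atTop (𝓝 (∫ x in Ioi (0:ℝ), f x)) :=
    intervalIntegral_tendsto_integral_Ioi 0 hint tendsto_natCast_atTop_atTop
  rw [abs_le]
  constructor
  · have := le_of_tendsto_of_tendsto' hi (hs'.add_const U) (fun M => h.le_sum M)
    linarith
  · have := le_of_tendsto_of_tendsto' hs' (hi.add_const U) (fun M => h.sum_le M)
    linarith

/-! ### The function `x ^ n * exp (-(s * x))` -/

theorem hasDerivAt_pexp (n : ℕ) (s x : ℝ) :
    HasDerivAt (fun x : ℝ => x ^ n * Real.exp (-(s * x)))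
      ((n * x ^ (n - 1)) * Real.exp (-(s * x)) + x ^ n * (Real.exp (-(s * x)) * (-s))) x := by
  have h1 : HasDerivAt (fun x : ℝ => x ^ n) (n * x ^ (n - 1)) x := by
    simpa using hasDerivAt_pow n x
  have h2 : HasDerivAt (fun x : ℝ => Real.exp (-(s * x))) (Real.exp (-(s * x)) * (-s)) x := by
    have h3 : HasDerivAt (fun x : ℝ => -(s * x)) (-s) x := by
      have h4 := (hasDerivAt_id x).const_mul (-s)
      simpa only [id_eq, neg_mul, mul_one] using h4
    exact h3.exp
  exact h1.mul h2

theorem deriv_pexp {n : ℕ} (hn : 1 ≤ n) (s x : ℝ) :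
    deriv (fun x : ℝ => x ^ n * Real.exp (-(s * x))) x
      = x ^ (n - 1) * Real.exp (-(s * x)) * (n - s * x) := by
  rw [(hasDerivAt_pexp n s x).deriv]
  obtain ⟨m, rfl⟩ := Nat.exists_eq_add_of_le hn
  simp only [Nat.add_sub_cancel_left]
  push_cast
  ring

theorem unim_pexp {n : ℕ} (hn : 1 ≤ n) {s : ℝ} (hs : 0 < s) :
    Unim (fun x : ℝ => x ^ n * Real.exp (-(s * x))) (n / s) ((n / (Real.exp 1 * s)) ^ n) := by
  have hcont : Continuous (fun x : ℝ => x ^ n * Real.exp (-(s * x))) := by fun_prop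
  have hmono : MonotoneOn (fun x : ℝ => x ^ n * Real.exp (-(s * x))) (Icc 0 (n / s)) := by
    apply monotoneOn_of_deriv_nonneg (convex_Icc _ _) hcont.continuousOn
    · intro x _
      exact (hasDerivAt_pexp n s x).differentiableAt.differentiableWithinAt
    · intro x hx
      rw [interior_Icc] at hx
      rw [deriv_pexp hn]
      have h1 : s * x ≤ n := by
        have := hx.2.le
        rw [le_div_iff₀ hs] at this
        linarith
      have h2 : 0 ≤ x := hx.1.le
      have : 0 ≤ (n : ℝ) - s * x := by linarith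
      positivity
  have hanti : AntitoneOn (fun x : ℝ => x ^ n * Real.exp (-(s * x))) (Ici (n / s)) := by
    apply antitoneOn_of_deriv_nonpos (convex_Ici _) hcont.continuousOn
    · intro x _
      exact (hasDerivAt_pexp n s x).differentiableAt.differentiableWithinAt
    · intro x hx
      rw [interior_Ici] at hx
      rw [deriv_pexp hn]
      have h0 : (0:ℝ) ≤ n / s := by positivity
      have h1 : n ≤ s * x := by
        have := (mem_Ioi.1 hx).le
        rw [div_le_iff₀ hs] at this
        linarith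
      have h2 : 0 ≤ x := h0.trans (mem_Ioi.1 hx).le
      have h3 : (n : ℝ) - s * x ≤ 0 := by linarith
      exact mul_nonpos_of_nonneg_of_nonpos (by positivity) h3
  have hmax : (fun x : ℝ => x ^ n * Real.exp (-(s * x))) (n / s)
      = (n / (Real.exp 1 * s)) ^ n := by
    have h1 : s * (n / s) = n := by field_simp
    simp only [h1]
    rw [show (n : ℝ) / (Real.exp 1 * s) = (n / s) * Real.exp (-1) by
      rw [Real.exp_neg]; field_simp]
    rw [mul_pow, ← Real.exp_nat_mul]
    congr 2
    ring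
  refine ⟨hcont, fun x hx => by positivity, by positivity, hmono, hanti, ?_⟩
  intro x hx
  rw [← hmax]
  rcases le_or_gt x (n / s) with h | h
  · exact hmono ⟨hx, h⟩ ⟨by positivity, le_rfl⟩ h
  · exact hanti (mem_Ici.2 le_rfl) (mem_Ici.2 h.le) h.le

theorem integral_pexp (n : ℕ) {s : ℝ} (hs : 0 < s) :
    ∫ x in Ioi (0:ℝ), x ^ n * Real.exp (-(s * x)) = n.factorial / s ^ (n + 1) := by
  have h := Real.integral_rpow_mul_exp_neg_mul_Ioi (a := n + 1) (r := s) (by positivity) hs
  have h1 : ∫ x in Ioi (0:ℝ), x ^ n * Real.exp (-(s * x))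
      = ∫ t in Ioi (0:ℝ), t ^ ((n : ℝ) + 1 - 1) * Real.exp (-(s * t)) := by
    apply setIntegral_congr_fun measurableSet_Ioi
    intro x _
    simp only [add_sub_cancel_right, Real.rpow_natCast]
  rw [h1, h, Real.Gamma_nat_eq_factorial, show ((n : ℝ) + 1) = ((n + 1 : ℕ) : ℝ) by push_cast; ring,
    Real.rpow_natCast, one_div, inv_pow]
  field_simp

theorem integrableOn_pexp (n : ℕ) {s : ℝ} (hs : 0 < s) :
    IntegrableOn (fun x : ℝ => x ^ n * Real.exp (-(s * x))) (Ioi 0) := by
  apply Integrable.of_integral_ne_zero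
  rw [integral_pexp n hs]
  positivity

/-- Summability of `k ^ n * exp (-(s k))`. -/
theorem summable_pexp {n : ℕ} (hn : 1 ≤ n) {s : ℝ} (hs : 0 < s) :
    Summable (fun k : ℕ => (k:ℝ) ^ n * Real.exp (-(s * k))) :=
  (unim_pexp hn hs).summable (integrableOn_pexp n hs)

/-- Sum against integral. -/
theorem abs_tsum_pexp_sub_le {n : ℕ} (hn : 1 ≤ n) {s : ℝ} (hs : 0 < s) :
    |∑' k : ℕ, (k:ℝ) ^ n * Real.exp (-(s * k)) - n.factorial / s ^ (n + 1)|
      ≤ (n / (Real.exp 1 * s)) ^ n := by
  have := (unim_pexp hn hs).abs_sub_le (integrableOn_pexp n hs)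
  rw [integral_pexp n hs] at this
  exact this

/-- The error term is at most half of the main term for `s ≤ sqrt n`. -/
theorem err_le_half {n : ℕ} (hn : 1 ≤ n) {s : ℝ} (hs : 0 < s) (hs1 : s ≤ Real.sqrt n) :
    (n / (Real.exp 1 * s)) ^ n ≤ (1 / 2) * (n.factorial / s ^ (n + 1)) := by
  have h1 := Stirling.le_factorial_stirling n
  have h2 : 2 * s ≤ Real.sqrt (2 * Real.pi * n) := by
    have h3 : Real.sqrt (2 * Real.pi * n) ≥ Real.sqrt (4 * n) := by
      apply Real.sqrt_le_sqrt
      have := Real.pi_gt_three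
      nlinarith [show (0:ℝ) ≤ n by positivity]
    have h4 : Real.sqrt (4 * n) = 2 * Real.sqrt n := by
      rw [Real.sqrt_mul (by norm_num), show Real.sqrt 4 = 2 by
        rw [show (4:ℝ) = 2 ^ 2 by norm_num]; exact Real.sqrt_sq (by norm_num)]
    linarith
  have h5 : (n / (Real.exp 1 * s)) ^ n = (n / Real.exp 1) ^ n / s ^ n := by
    rw [← div_div, div_pow]
  rw [h5]
  have h6 : (2 * s) * ((n : ℝ) / Real.exp 1) ^ n ≤ n.factorial :=
    (mul_le_mul_of_nonneg_right h2 (by positivity)).trans h1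
  rw [pow_succ]
  rw [div_le_iff₀ (by positivity)]
  have h7 : (1 / 2) * ((n.factorial : ℝ) / (s ^ n * s)) * s ^ n = (n.factorial : ℝ) / (2 * s) := by
    field_simp
  rw [h7, le_div_iff₀ (by positivity)]
  linarith

/-- Relative form: `(1/2) n! / s^(n+1) ≤ ∑ k^n e^(-s k) ≤ (3/2) n! / s^(n+1)` for
`0 < s ≤ sqrt n`. -/
theorem tsum_pexp_bounds {n : ℕ} (hn : 1 ≤ n) {s : ℝ} (hs : 0 < s) (hs1 : s ≤ Real.sqrt n) :
    (1 / 2) * (n.factorial / s ^ (n + 1)) ≤ ∑' k : ℕ, (k:ℝ) ^ n * Real.exp (-(s * k)) ∧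
    ∑' k : ℕ, (k:ℝ) ^ n * Real.exp (-(s * k)) ≤ (3 / 2) * (n.factorial / s ^ (n + 1)) := by
  have h1 := abs_le.1 (abs_tsum_pexp_sub_le hn hs)
  have h2 := err_le_half hn hs hs1
  constructor <;> linarith [h1.1, h1.2]

/-! ### The sharp one-sided form, for every `s > 0` -/

theorem integral_exp_unit {s : ℝ} (hs : 0 < s) (k : ℝ) :
    ∫ x in k..(k + 1), Real.exp (-(s * x)) = (1 - Real.exp (-s)) / s * Real.exp (-(s * k)) := by
  have hd : ∀ x ∈ uIcc k (k + 1), HasDerivAt (fun x : ℝ => -(Real.exp (-(s * x)) / s))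
      (Real.exp (-(s * x))) x := by
    intro x _
    have h3 : HasDerivAt (fun x : ℝ => -(s * x)) (-s) x := by
      have h4 := (hasDerivAt_id x).const_mul (-s)
      simpa only [id_eq, neg_mul, mul_one] using h4
    have h5 := (h3.exp.div_const s).fun_neg
    have h6 : -(Real.exp (-(s * x)) * -s / s) = Real.exp (-(s * x)) := by
      rw [mul_neg, neg_div, neg_neg, mul_div_cancel_right₀ _ hs.ne']
    rwa [h6] at h5
  rw [intervalIntegral.integral_eq_sub_of_hasDerivAt hd
    ((by fun_prop : Continuous (fun x : ℝ => Real.exp (-(s * x)))).intervalIntegrable _ _)]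
  rw [show -(s * (k + 1)) = -(s * k) + -s by ring, Real.exp_add]
  ring

theorem integral_pexp_unit_le {n : ℕ} {s : ℝ} (hs : 0 < s) {k : ℝ} (hk : 0 ≤ k) :
    ∫ x in k..(k + 1), x ^ n * Real.exp (-(s * x))
      ≤ (1 - Real.exp (-s)) / s * ((k + 1) ^ n * Real.exp (-(s * k))) := by
  have hc : Continuous (fun x : ℝ => x ^ n * Real.exp (-(s * x))) := by fun_prop
  have hc' : Continuous (fun x : ℝ => (k + 1) ^ n * Real.exp (-(s * x))) := by fun_prop
  have h1 : ∫ x in k..(k + 1), x ^ n * Real.exp (-(s * x))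
      ≤ ∫ x in k..(k + 1), (k + 1) ^ n * Real.exp (-(s * x)) := by
    apply intervalIntegral.integral_mono_on (by linarith) (hc.intervalIntegrable _ _)
      (hc'.intervalIntegrable _ _)
    intro x hx
    have h0 : 0 ≤ x := hk.trans hx.1
    exact mul_le_mul_of_nonneg_right (pow_le_pow_left₀ h0 hx.2 n) (Real.exp_pos _).le
  rw [intervalIntegral.integral_const_mul, integral_exp_unit hs] at h1
  linarith

theorem le_integral_pexp_unit {n : ℕ} {s : ℝ} (hs : 0 < s) {k : ℝ} (hk : 0 ≤ k) :
    (1 - Real.exp (-s)) / s * (k ^ n * Real.exp (-(s * k)))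
      ≤ ∫ x in k..(k + 1), x ^ n * Real.exp (-(s * x)) := by
  have hc : Continuous (fun x : ℝ => x ^ n * Real.exp (-(s * x))) := by fun_prop
  have hc' : Continuous (fun x : ℝ => k ^ n * Real.exp (-(s * x))) := by fun_prop
  have h1 : ∫ x in k..(k + 1), k ^ n * Real.exp (-(s * x))
      ≤ ∫ x in k..(k + 1), x ^ n * Real.exp (-(s * x)) := by
    apply intervalIntegral.integral_mono_on (by linarith) (hc'.intervalIntegrable _ _)
      (hc.intervalIntegrable _ _)
    intro x hx
    exact mul_le_mul_of_nonneg_right (pow_le_pow_left₀ hk hx.1 n) (Real.exp_pos _).le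
  rw [intervalIntegral.integral_const_mul, integral_exp_unit hs] at h1
  linarith

theorem one_sub_exp_neg_pos {s : ℝ} (hs : 0 < s) : 0 < 1 - Real.exp (-s) := by
  have : Real.exp (-s) < 1 := by rw [Real.exp_lt_one_iff]; linarith
  linarith

theorem integral_le_sum_succ (n : ℕ) {s : ℝ} (hs : 0 < s) (M : ℕ) :
    ∫ x in (0:ℝ)..M, x ^ n * Real.exp (-(s * x))
      ≤ (1 - Real.exp (-s)) / s
        * ∑ k ∈ Finset.range M, ((k:ℝ) + 1) ^ n * Real.exp (-(s * k)) := by
  have hc : Continuous (fun x : ℝ => x ^ n * Real.exp (-(s * x))) := by fun_prop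
  induction M with
  | zero => simp
  | succ M ih =>
    rw [Finset.sum_range_succ, mul_add]
    have h1 := integral_pexp_unit_le (n := n) hs (k := M) (by positivity)
    have h2 : (∫ x in (0:ℝ)..((M + 1 : ℕ) : ℝ), x ^ n * Real.exp (-(s * x)))
        = (∫ x in (0:ℝ)..M, x ^ n * Real.exp (-(s * x)))
          + ∫ x in (M:ℝ)..(M + 1), x ^ n * Real.exp (-(s * x)) := by
      rw [intervalIntegral.integral_add_adjacent_intervals (hc.intervalIntegrable _ _)
        (hc.intervalIntegrable _ _)]
      push_cast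
      rfl
    rw [h2]
    linarith

theorem sum_succ_le_integral (n : ℕ) {s : ℝ} (hs : 0 < s) (M : ℕ) :
    (1 - Real.exp (-s)) / s
        * ∑ k ∈ Finset.range M, ((k:ℝ) + 1) ^ n * Real.exp (-(s * (k + 1)))
      ≤ ∫ x in (0:ℝ)..(M + 1), x ^ n * Real.exp (-(s * x)) := by
  have hc : Continuous (fun x : ℝ => x ^ n * Real.exp (-(s * x))) := by fun_prop
  induction M with
  | zero =>
    simp only [Finset.range_zero, Finset.sum_empty, mul_zero]
    apply intervalIntegral.integral_nonneg (by simp)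
    intro x hx
    have := hx.1
    positivity
  | succ M ih =>
    rw [Finset.sum_range_succ, mul_add]
    have h1 := le_integral_pexp_unit (n := n) hs (k := (M:ℝ) + 1) (by positivity)
    have h2 : (∫ x in (0:ℝ)..(((M + 1 : ℕ) : ℝ) + 1), x ^ n * Real.exp (-(s * x)))
        = (∫ x in (0:ℝ)..(M + 1), x ^ n * Real.exp (-(s * x)))
          + ∫ x in ((M:ℝ) + 1)..(M + 1 + 1), x ^ n * Real.exp (-(s * x)) := by
      rw [intervalIntegral.integral_add_adjacent_intervals (hc.intervalIntegrable _ _)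
        (hc.intervalIntegrable _ _)]
      push_cast
      rfl
    rw [h2]
    linarith

theorem integral_pexp_le (n : ℕ) {s : ℝ} (hs : 0 < s) {b : ℝ} (hb : 0 ≤ b) :
    ∫ x in (0:ℝ)..b, x ^ n * Real.exp (-(s * x)) ≤ n.factorial / s ^ (n + 1) := by
  rw [← integral_pexp n hs, intervalIntegral.integral_of_le hb]
  apply setIntegral_mono_set (integrableOn_pexp n hs)
  · filter_upwards [ae_restrict_mem measurableSet_Ioi] with x hx
    have : 0 < x := hx
    positivity
  · exact Ioc_subset_Ioi_self.eventuallyLE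

theorem sum_succ_le (n : ℕ) {s : ℝ} (hs : 0 < s) (M : ℕ) :
    ∑ k ∈ Finset.range M, ((k:ℝ) + 1) ^ n * Real.exp (-(s * k))
      ≤ Real.exp s * (n.factorial / (s ^ n * (1 - Real.exp (-s)))) := by
  have h1 := sum_succ_le_integral n hs M
  have h2 := integral_pexp_le n hs (b := (M:ℝ) + 1) (by positivity)
  have h3 := one_sub_exp_neg_pos hs
  have h4 : ∑ k ∈ Finset.range M, ((k:ℝ) + 1) ^ n * Real.exp (-(s * (k + 1)))
      ≤ n.factorial / (s ^ n * (1 - Real.exp (-s))) := by
    rw [le_div_iff₀ (by positivity)]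
    have h5 := h1.trans h2
    rw [le_div_iff₀ (by positivity)] at h5
    calc (∑ k ∈ Finset.range M, ((k:ℝ) + 1) ^ n * Real.exp (-(s * (k + 1))))
          * (s ^ n * (1 - Real.exp (-s)))
        = (1 - Real.exp (-s)) / s
          * (∑ k ∈ Finset.range M, ((k:ℝ) + 1) ^ n * Real.exp (-(s * (k + 1)))) * s ^ (n + 1) := by
          generalize (∑ k ∈ Finset.range M, ((k:ℝ) + 1) ^ n * Real.exp (-(s * (k + 1)))) = A
          generalize 1 - Real.exp (-s) = B
          rw [pow_succ]; field_simp
      _ ≤ _ := h5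
  calc ∑ k ∈ Finset.range M, ((k:ℝ) + 1) ^ n * Real.exp (-(s * k))
      = Real.exp s * ∑ k ∈ Finset.range M, ((k:ℝ) + 1) ^ n * Real.exp (-(s * (k + 1))) := by
        rw [Finset.mul_sum]
        apply Finset.sum_congr rfl
        intro k _
        rw [show -(s * ((k:ℝ) + 1)) = -(s * k) + -s by ring, Real.exp_add, Real.exp_neg s]
        field_simp
    _ ≤ _ := mul_le_mul_of_nonneg_left h4 (Real.exp_pos _).le

/-- Summability of `(k+1) ^ n * exp (-(s k))`. -/
theorem summable_succ (n : ℕ) {s : ℝ} (hs : 0 < s) :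
    Summable (fun k : ℕ => ((k:ℝ) + 1) ^ n * Real.exp (-(s * k))) := by
  apply summable_of_sum_range_le (c := Real.exp s * (n.factorial / (s ^ n * (1 - Real.exp (-s)))))
  · intro k; positivity
  · intro M; exact sum_succ_le n hs M

/-- Upper bound: `∑_{m ≥ 1} m ^ n e^(-s (m-1)) ≤ e^s n! / (s^n (1 - e^(-s)))` for every `s > 0`. -/
theorem tsum_succ_le (n : ℕ) {s : ℝ} (hs : 0 < s) :
    ∑' k : ℕ, ((k:ℝ) + 1) ^ n * Real.exp (-(s * k))
      ≤ Real.exp s * (n.factorial / (s ^ n * (1 - Real.exp (-s)))) :=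
  le_of_tendsto' (summable_succ n hs).hasSum.tendsto_sum_nat (fun M => sum_succ_le n hs M)

/-- Lower bound: `n! / (s^n (1 - e^(-s))) ≤ ∑_{m ≥ 1} m ^ n e^(-s (m-1))` for every `s > 0`. -/
theorem le_tsum_succ (n : ℕ) {s : ℝ} (hs : 0 < s) :
    n.factorial / (s ^ n * (1 - Real.exp (-s)))
      ≤ ∑' k : ℕ, ((k:ℝ) + 1) ^ n * Real.exp (-(s * k)) := by
  have h3 := one_sub_exp_neg_pos hs
  have hi : Tendsto (fun M : ℕ => ∫ x in (0:ℝ)..(M:ℝ), x ^ n * Real.exp (-(s * x))) atTop
      (𝓝 (∫ x in Ioi (0:ℝ), x ^ n * Real.exp (-(s * x)))) :=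
    intervalIntegral_tendsto_integral_Ioi 0 (integrableOn_pexp n hs) tendsto_natCast_atTop_atTop
  rw [integral_pexp n hs] at hi
  have hs' := (summable_succ n hs).hasSum.tendsto_sum_nat
  have h4 := le_of_tendsto_of_tendsto' hi (hs'.const_mul ((1 - Real.exp (-s)) / s))
    (fun M => integral_le_sum_succ n hs M)
  rw [div_le_iff₀ (by positivity)] at h4
  rw [div_le_iff₀ (by positivity)]
  calc (n.factorial : ℝ) ≤ _ := h4
    _ = _ := by rw [pow_succ]; field_simp

/-- The same two bounds with `r ^ k`, `r = exp (-s)`. -/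
theorem tsum_succ_pow_le (n : ℕ) {s : ℝ} (hs : 0 < s) :
    ∑' k : ℕ, ((k:ℝ) + 1) ^ n * Real.exp (-s) ^ k
      ≤ Real.exp s * (n.factorial / (s ^ n * (1 - Real.exp (-s)))) := by
  have h := tsum_succ_le n hs
  have e : (fun k : ℕ => ((k:ℝ) + 1) ^ n * Real.exp (-(s * k)))
      = (fun k : ℕ => ((k:ℝ) + 1) ^ n * Real.exp (-s) ^ k) := by
    funext k
    rw [← Real.exp_nat_mul]
    congr 2
    ring
  rwa [e] at h

theorem le_tsum_succ_pow (n : ℕ) {s : ℝ} (hs : 0 < s) :
    n.factorial / (s ^ n * (1 - Real.exp (-s)))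
      ≤ ∑' k : ℕ, ((k:ℝ) + 1) ^ n * Real.exp (-s) ^ k := by
  have h := le_tsum_succ n hs
  have e : (fun k : ℕ => ((k:ℝ) + 1) ^ n * Real.exp (-(s * k)))
      = (fun k : ℕ => ((k:ℝ) + 1) ^ n * Real.exp (-s) ^ k) := by
    funext k
    rw [← Real.exp_nat_mul]
    congr 2
    ring
  rwa [e] at h

theorem summable_succ_pow (n : ℕ) {s : ℝ} (hs : 0 < s) :
    Summable (fun k : ℕ => ((k:ℝ) + 1) ^ n * Real.exp (-s) ^ k) := by
  have h := summable_succ n hs
  have e : (fun k : ℕ => ((k:ℝ) + 1) ^ n * Real.exp (-(s * k)))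
      = (fun k : ℕ => ((k:ℝ) + 1) ^ n * Real.exp (-s) ^ k) := by
    funext k
    rw [← Real.exp_nat_mul]
    congr 2
    ring
  rwa [e] at h

end Pool.Agent.SC90
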